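import Pool.Agent.W475.BG.Stm
import Pool.Agent.W156.BH.GGC

set_option autoImplicit false

/-! BG-GGC: crude bounds for the gamma factor of degree `d` and its flow. -/

namespace Pool.Agent.W356.BG

open Complex MeasureTheory Filter Topology
open Pool.Agent.W475.BG
open Pool.Agent.W156.BH (norm_Gamma_le Gamma_le_pow grow log2s)

/-- one gamma factor -/
theorem gR (w : ℂ) (hw : 0 ≤ w.re) :
    ‖Gammaℝ (1 / 2 + w)‖ ≤ Real.exp (20 * ((1 + w.re) * Real.log (2 + w.re))) := by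
  set s := w.re with hs
  have hre : (1 / 2 + w).re = 1 / 2 + s := by simp [hs]
  have hl := log2s hw
  have hE : 0 ≤ (1 + s) * Real.log (2 + s) := by positivity
  have h2 : ‖Gammaℝ (1 / 2 + w)‖ ≤ Real.exp (10 * (1 + s) * Real.log (2 + s)) * 4 := by
    rw [Gammaℝ_def, norm_mul]
    have hp : ‖(Real.pi : ℂ) ^ (-(1 / 2 + w) / 2)‖ ≤ 1 := by
      rw [Complex.norm_cpow_eq_rpow_re_of_pos Real.pi_pos]
      apply Real.rpow_le_one_of_one_le_of_nonpos (by linarith [Real.pi_gt_three])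
      have : (-(1 / 2 + w) / 2).re = -(1 / 2 + s) / 2 := by
        simp [hs]
      rw [this]; linarith
    have hre2 : ((1 / 2 + w) / 2).re = (1 / 2 + s) / 2 := by
      simp [hs]
    have hg : ‖Complex.Gamma ((1 / 2 + w) / 2)‖ ≤ Real.Gamma ((1 / 2 + s) / 2) := by
      have := norm_Gamma_le (w := (1 / 2 + w) / 2) (by rw [hre2]; linarith)
      rwa [hre2] at this
    have hx : (0 : ℝ) < (1 / 2 + s) / 2 := by linarith
    have hg2 : Real.Gamma ((1 / 2 + s) / 2) ≤ 4 * Real.Gamma ((1 / 2 + s) / 2 + 1) := by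
      rw [Real.Gamma_add_one hx.ne']
      have := Real.Gamma_pos_of_pos hx
      nlinarith
    have hg3 : Real.Gamma ((1 / 2 + s) / 2 + 1) ≤ Real.exp (6 * (1 + s) * Real.log (2 + s)) :=
      (Gamma_le_pow (by linarith)).trans (Real.exp_le_exp.2 (grow hw (by linarith) (by linarith)))
    have hm : Real.exp (6 * (1 + s) * Real.log (2 + s)) ≤ Real.exp (10 * (1 + s) * Real.log (2 + s)) := by
      apply Real.exp_le_exp.2
      nlinarith
    calc ‖(Real.pi : ℂ) ^ (-(1 / 2 + w) / 2)‖ * ‖Complex.Gamma ((1 / 2 + w) / 2)‖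
        ≤ 1 * Real.Gamma ((1 / 2 + s) / 2) := by gcongr
      _ ≤ 4 * Real.Gamma ((1 / 2 + s) / 2 + 1) := by linarith
      _ ≤ 4 * Real.exp (10 * (1 + s) * Real.log (2 + s)) := by linarith
      _ = _ := by ring
  have hfin : (4 : ℝ) ≤ Real.exp (10 * (1 + s) * Real.log (2 + s)) := by
    have h1 : (3 : ℝ) ≤ 10 * (1 + s) * Real.log (2 + s) := by nlinarith
    have h3 := Real.add_one_le_exp (3 : ℝ)
    have h4 := Real.exp_le_exp.2 h1
    linarith
  calc ‖Gammaℝ (1 / 2 + w)‖ ≤ Real.exp (10 * (1 + s) * Real.log (2 + s)) * 4 := h2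
    _ ≤ Real.exp (10 * (1 + s) * Real.log (2 + s)) * Real.exp (10 * (1 + s) * Real.log (2 + s)) :=
        mul_le_mul_of_nonneg_left hfin (Real.exp_pos _).le
    _ = _ := by rw [← Real.exp_add]; ring_nf

/-- shifting the exponent -/
theorem shift {x m : ℝ} (hx : 0 ≤ x) (hm : 0 ≤ m) :
    (1 + (x + m)) * Real.log (2 + (x + m)) ≤
      (1 + m) * (1 + 2 * m) * ((1 + x) * Real.log (2 + x)) := by
  have hl := log2s hx
  have h1 : 1 + (x + m) ≤ (1 + m) * (1 + x) := by nlinarith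
  have h2 : Real.log (2 + (x + m)) ≤ (1 + 2 * m) * Real.log (2 + x) := by
    have h3 : Real.log (2 + (x + m)) ≤ Real.log ((2 + x) * (1 + m)) :=
      Real.log_le_log (by linarith) (by nlinarith)
    rw [Real.log_mul (by linarith) (by linarith)] at h3
    have h4 : Real.log (1 + m) ≤ (1 + m) - 1 := Real.log_le_sub_one_of_pos (by linarith)
    nlinarith
  have h5 : 0 ≤ Real.log (2 + (x + m)) := Real.log_nonneg (by linarith)
  calc (1 + (x + m)) * Real.log (2 + (x + m)) ≤ ((1 + m) * (1 + x)) * ((1 + 2 * m) * Real.log (2 + x)) :=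
        mul_le_mul h1 h2 h5 (by positivity)
    _ = _ := by ring

/-- the constant -/
noncomputable def KK (D : Dat) : ℝ :=
  1 + 2 * |Real.log D.Q| + ∑ j, 20 * ((1 + D.mu j) * (1 + 2 * D.mu j))

theorem HH_le (D : Dat) (hD : Ok D) (z : ℂ) (hz : 0 ≤ z.re) :
    ‖HH D z‖ ≤ Real.exp (KK D * (1 + z.re) * Real.log (2 + z.re)) := by
  set x := z.re with hx
  set E := (1 + x) * Real.log (2 + x) with hE
  have hl := log2s hz
  have hE0 : (1 + x) / 2 ≤ E := by rw [hE]; nlinarith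
  have hE00 : 0 ≤ E := by linarith
  have h1 : ‖(D.Q : ℂ) ^ (1 / 2 + z)‖ ≤ Real.exp (2 * |Real.log D.Q| * E) := by
    rw [Complex.norm_cpow_eq_rpow_re_of_pos hD.hQ]
    have hre : (1 / 2 + z).re = 1 / 2 + x := by simp [hx]
    rw [hre, Real.rpow_def_of_pos hD.hQ]
    apply Real.exp_le_exp.2
    have h2 := le_abs_self (Real.log D.Q)
    have h3 := abs_nonneg (Real.log D.Q)
    calc Real.log D.Q * (1 / 2 + x) ≤ |Real.log D.Q| * (1 / 2 + x) :=
          mul_le_mul_of_nonneg_right h2 (by linarith)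
      _ ≤ |Real.log D.Q| * (2 * E) := mul_le_mul_of_nonneg_left (by linarith) h3
      _ = _ := by ring
  have h2 : ‖∏ j, Gammaℝ (1 / 2 + z + D.mu j)‖ ≤
      Real.exp ((∑ j, 20 * ((1 + D.mu j) * (1 + 2 * D.mu j))) * E) := by
    rw [norm_prod, Finset.sum_mul, Real.exp_sum]
    apply Finset.prod_le_prod (fun _ _ => norm_nonneg _)
    intro j _
    have hre : (z + D.mu j).re = x + D.mu j := by simp [hx]
    have h3 := gR (z + D.mu j) (by rw [hre]; have := hD.hmu j; linarith)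
    rw [hre, ← add_assoc] at h3
    refine h3.trans (Real.exp_le_exp.2 ?_)
    have h4 := shift hz (hD.hmu j)
    calc 20 * ((1 + (x + D.mu j)) * Real.log (2 + (x + D.mu j)))
        ≤ 20 * ((1 + D.mu j) * (1 + 2 * D.mu j) * ((1 + x) * Real.log (2 + x))) := by linarith
      _ = _ := by rw [hE]; ring
  unfold HH
  rw [norm_mul]
  calc ‖(D.Q : ℂ) ^ (1 / 2 + z)‖ * ‖∏ j, Gammaℝ (1 / 2 + z + D.mu j)‖
      ≤ Real.exp (2 * |Real.log D.Q| * E) *
        Real.exp ((∑ j, 20 * ((1 + D.mu j) * (1 + 2 * D.mu j))) * E) :=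
        mul_le_mul h1 h2 (norm_nonneg _) (Real.exp_pos _).le
    _ = Real.exp ((2 * |Real.log D.Q| + ∑ j, 20 * ((1 + D.mu j) * (1 + 2 * D.mu j))) * E) := by
        rw [← Real.exp_add]; ring_nf
    _ ≤ _ := by
        apply Real.exp_le_exp.2
        have h5 : KK D * (1 + x) * Real.log (2 + x) = KK D * E := by rw [hE]; ring
        rw [h5]
        unfold KK
        nlinarith

theorem cont_gR {s : ℂ} (hs : 0 < s.re) : ContinuousAt Gammaℝ s := by
  have h1 : ContinuousAt (fun s : ℂ => (Gammaℝ s)⁻¹) s :=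
    differentiable_Gammaℝ_inv.continuous.continuousAt
  have h2 := h1.inv₀ (inv_ne_zero (Gammaℝ_ne_zero_of_re_pos hs))
  have h3 : (fun s : ℂ => (Gammaℝ s)⁻¹⁻¹) = Gammaℝ := by
    funext s
    exact inv_inv _
  have h4 : (fun s : ℂ => (Gammaℝ s)⁻¹)⁻¹ = Gammaℝ := h3
  rw [h4] at h2
  exact h2

theorem cont_HH (D : Dat) (hD : Ok D) {z : ℂ} (hz : 0 ≤ z.re) : ContinuousAt (HH D) z := by
  unfold HH
  apply ContinuousAt.mul
  · have hQ : (D.Q : ℂ) ≠ 0 := by exact_mod_cast hD.hQ.ne'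
    exact ContinuousAt.const_cpow (by fun_prop) (Or.inl hQ)
  · have h1 : ContinuousAt (fun z : ℂ => ∏ j, Gammaℝ (1 / 2 + z + D.mu j)) z := by
      apply tendsto_finsetProd
      intro j _
      have h2 : ContinuousAt (fun z : ℂ => Gammaℝ (1 / 2 + z + D.mu j)) z := by
        apply ContinuousAt.comp (g := Gammaℝ) (f := fun z : ℂ => 1 / 2 + z + D.mu j)
        · apply cont_gR
          have : (1 / 2 + z + (D.mu j : ℂ)).re = 1 / 2 + z.re + D.mu j := by simp
          rw [this]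
          have := hD.hmu j
          linarith
        · fun_prop
      exact h2
    exact h1

theorem ggc (D : Dat) (hD : Ok D) : S_GGC D := by
  have hK1 : 1 ≤ KK D := by
    unfold KK
    have h1 := abs_nonneg (Real.log D.Q)
    have h2 : 0 ≤ ∑ j, 20 * ((1 + D.mu j) * (1 + 2 * D.mu j)) := by
      apply Finset.sum_nonneg
      intro j _
      have := hD.hmu j
      positivity
    linarith
  refine ⟨KK D, hK1, ?_, fun z hz => HH_le D hD z hz⟩
  intro κ _ z hz
  set M := Real.exp (KK D * (1 + z.re) * Real.log (2 + z.re)) with hM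
  have hre : ∀ v : ℝ, (z + I * ((2 * Real.sqrt κ * v : ℝ) : ℂ)).re = z.re := by
    intro v
    rw [Complex.add_re, mul_comm I, Complex.re_ofReal_mul, Complex.I_re, mul_zero, add_zero]
  have hb : ∀ v : ℝ, ‖HH D (z + I * ((2 * Real.sqrt κ * v : ℝ) : ℂ))‖ ≤ M := by
    intro v
    have h1 := HH_le D hD (z + I * ((2 * Real.sqrt κ * v : ℝ) : ℂ)) (by rw [hre]; exact hz)
    rw [hre] at h1
    exact h1
  have hgi : Integrable (fun v : ℝ => Real.exp (-v ^ 2)) := by
    have := (integrable_exp_neg_mul_sq (b := 1) one_pos)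
    have h2 : (fun x : ℝ => Real.exp (-1 * x ^ 2)) = fun x => Real.exp (-x ^ 2) := by
      funext x; congr 1; ring
    rwa [h2] at this
  have hgv : ∫ v : ℝ, Real.exp (-v ^ 2) = Real.sqrt Real.pi := by
    have := integral_gaussian 1
    rw [div_one] at this
    rw [← this]
    congr 1
    funext x
    congr 1
    ring
  have hcont : Continuous (fun v : ℝ => ((Real.exp (-v ^ 2) : ℝ) : ℂ) *
      HH D (z + I * ((2 * Real.sqrt κ * v : ℝ) : ℂ))) := by
    apply Continuous.mul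
    · fun_prop
    · rw [continuous_iff_continuousAt]
      intro v
      apply ContinuousAt.comp (g := HH D) (f := fun v : ℝ => z + I * ((2 * Real.sqrt κ * v : ℝ) : ℂ))
      · exact cont_HH D hD (by rw [hre]; exact hz)
      · fun_prop
  have hpt : ∀ v : ℝ, ‖((Real.exp (-v ^ 2) : ℝ) : ℂ) *
      HH D (z + I * ((2 * Real.sqrt κ * v : ℝ) : ℂ))‖ ≤ M * Real.exp (-v ^ 2) := by
    intro v
    rw [norm_mul, Complex.norm_real, Real.norm_eq_abs, abs_of_pos (Real.exp_pos _), mul_comm]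
    exact mul_le_mul_of_nonneg_right (hb v) (Real.exp_pos _).le
  have hdom : Integrable (fun v : ℝ => M * Real.exp (-v ^ 2)) := hgi.const_mul M
  refine ⟨hdom.mono' hcont.aestronglyMeasurable (Filter.Eventually.of_forall hpt), ?_⟩
  have h1 : ‖∫ v : ℝ, ((Real.exp (-v ^ 2) : ℝ) : ℂ) *
      HH D (z + I * ((2 * Real.sqrt κ * v : ℝ) : ℂ))‖ ≤ ∫ v : ℝ, M * Real.exp (-v ^ 2) :=
    norm_integral_le_of_norm_le hdom (Filter.Eventually.of_forall hpt)
  rw [integral_const_mul, hgv] at h1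
  unfold GG
  have hpi : 0 < Real.sqrt Real.pi := Real.sqrt_pos.mpr Real.pi_pos
  rw [norm_mul, Complex.norm_real, Real.norm_eq_abs, abs_of_pos (by positivity)]
  calc 1 / Real.sqrt Real.pi * ‖∫ v : ℝ, ((Real.exp (-v ^ 2) : ℝ) : ℂ) *
        HH D (z + I * ((2 * Real.sqrt κ * v : ℝ) : ℂ))‖
      ≤ 1 / Real.sqrt Real.pi * (M * Real.sqrt Real.pi) :=
        mul_le_mul_of_nonneg_left h1 (by positivity)
    _ = M := by field_simp

end Pool.Agent.W356.BG
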